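import Pool.Agent.Q62.RP.Jen
import Pool.Agent.Y978.NK.DET
import Pool.Agent.Y891.NK.POT

/-! The logarithm of `det (1 - t A)`, integrated over the coupling `t`. -/

set_option autoImplicit false

namespace Pool.Agent.Q62.RQ

open MeasureTheory Set Metric Filter Topology Matrix
open scoped ENNReal NNReal InnerProductSpace
open Pool.Agent.Q62.RP Pool.Agent.Y283.NK

theorem Lam_le_lm (x : ℝ) : Lam x ≤ lm x := by
  unfold Lam lm
  split_ifs with h
  · exact le_refl _
  · refine ENNReal.ofReal_le_ofReal ?_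
    rw [← Real.log_inv]
    exact le_max_right _ _

theorem weyl {n : ℕ} (A : Matrix (Fin n) (Fin n) ℂ) : ∃ μ : Fin n → ℂ,
    (∀ t : ℂ, (1 - t • A).det = ∏ k, (1 - t * μ k)) ∧ ∑ k, ‖μ k‖ ≤ ns A := by
  classical
  have key : ∀ w : ℂ, ∃ s : ℂ, (‖s‖ ^ 2 = ‖w‖) ∧ (starRingEnd ℂ s) * s * (if w = 0 then 0 else w / ‖w‖) = w := by
    intro w
    refine ⟨((Real.sqrt ‖w‖ : ℝ) : ℂ), ?_, ?_⟩
    · rw [Complex.norm_real, Real.norm_eq_abs, sq_abs, Real.sq_sqrt (norm_nonneg _)]
    · rw [Complex.conj_ofReal, ← Complex.ofReal_mul, Real.mul_self_sqrt (norm_nonneg _)]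
      by_cases h : w = 0
      · simp [h]
      · rw [if_neg h]
        have : (‖w‖ : ℂ) ≠ 0 := by
          rw [Complex.ofReal_ne_zero]; exact norm_ne_zero_iff.mpr h
        field_simp
  choose s hs1 hs2 using key
  set ph : ℂ → ℂ := fun w => if w = 0 then 0 else w / ‖w‖ with hph
  have hph1 : ∀ w, ‖ph w‖ ≤ 1 := by
    intro w
    simp only [hph]
    split_ifs with h
    · simp
    · rw [norm_div, Complex.norm_real, norm_norm, div_self (norm_ne_zero_iff.mpr h)]
  set q : Fin n → EuclideanSpace ℂ (Fin n × Fin n) := fun i =>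
    WithLp.toLp 2 (fun ab => if ab.1 = i then s (A ab.1 ab.2) else 0) with hq
  set p : Fin n → EuclideanSpace ℂ (Fin n × Fin n) := fun j =>
    WithLp.toLp 2 (fun ab => if ab.2 = j then s (A ab.1 ab.2) * ph (A ab.1 ab.2) else 0) with hp
  obtain ⟨μ, h1, h2⟩ := Pool.Agent.Y978.NK.main (EuclideanSpace ℂ (Fin n × Fin n)) n p q
  have hA : Matrix.of (fun i j => ⟪q i, p j⟫_ℂ) = A := by
    ext i j
    rw [Matrix.of_apply, PiLp.inner_apply, Fintype.sum_prod_type]
    rw [Finset.sum_eq_single i, Finset.sum_eq_single j]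
    · simp only [hq, hp, if_true]
      have := hs2 (A i j)
      rw [RCLike.inner_apply]
      rw [mul_comm]
      rw [← mul_assoc]
      exact this
    · intro b _ hb
      simp [hq, hp, hb]
    · simp
    · intro a _ ha
      refine Finset.sum_eq_zero fun b _ => ?_
      simp [hq, ha]
    · simp
  rw [hA] at h1
  refine ⟨μ, h1, h2.trans ?_⟩
  have hq2 : ∑ i, ‖q i‖ ^ 2 ≤ ns A := by
    unfold ns
    refine Finset.sum_le_sum fun i _ => ?_
    rw [EuclideanSpace.norm_sq_eq, Fintype.sum_prod_type, Finset.sum_eq_single i]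
    · refine Finset.sum_le_sum fun j _ => ?_
      simp only [hq, if_true]
      rw [hs1]
    · intro a _ ha
      refine Finset.sum_eq_zero fun b _ => ?_
      simp [hq, ha]
    · simp
  have hp2 : ∑ j, ‖p j‖ ^ 2 ≤ ns A := by
    unfold ns
    rw [Finset.sum_comm]
    refine Finset.sum_le_sum fun j _ => ?_
    rw [EuclideanSpace.norm_sq_eq, Fintype.sum_prod_type]
    refine Finset.sum_le_sum fun i _ => ?_
    rw [Finset.sum_eq_single j]
    · simp only [hp, if_true]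
      rw [norm_mul, mul_pow, hs1]
      have h3 : ‖ph (A i j)‖ ^ 2 ≤ 1 := pow_le_one₀ (norm_nonneg _) (hph1 _)
      nlinarith [norm_nonneg (A i j)]
    · intro b _ hb
      simp [hp, hb]
    · simp
  have hn := ns_nonneg A
  calc Real.sqrt (∑ j, ‖p j‖ ^ 2) * Real.sqrt (∑ i, ‖q i‖ ^ 2)
      ≤ Real.sqrt (ns A) * Real.sqrt (ns A) :=
        mul_le_mul (Real.sqrt_le_sqrt hp2) (Real.sqrt_le_sqrt hq2) (Real.sqrt_nonneg _)
          (Real.sqrt_nonneg _)
    _ = ns A := Real.mul_self_sqrt hn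

theorem pot (m : Measure ℂ) (hm : LogBd m) (R : ℝ) : ∃ C : ℝ≥0, ∀ (n : ℕ)
    (A : Matrix (Fin n) (Fin n) ℂ),
    ∫⁻ t in ball (0:ℂ) R, Lam ‖(1 - t • A).det‖ ∂m ≤ C * ENNReal.ofReal (ns A) := by
  obtain ⟨C, hC⟩ := Pool.Agent.Y891.NK.main m hm R
  refine ⟨C, fun n A => ?_⟩
  obtain ⟨μ, h1, h2⟩ := weyl A
  simp only [h1]
  refine (lintegral_mono fun t => Lam_le_lm _).trans ((hC n μ).trans ?_)
  gcongr

end Pool.Agent.Q62.RQ
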