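import Pool.Agent.Q62.RP.Scal
import Pool.Agent.Q62.RQ.Pot

/-! The perturbed diagonal system for almost every coupling. -/

set_option autoImplicit false

namespace Pool.Agent.Q62.RQ

open MeasureTheory Set Metric Filter Topology Matrix
open scoped ENNReal NNReal
open Pool.Agent.Q62.RP Pool.Agent.Y283.NK

variable (lam : ℕ → ℂ) (k : ℕ → ℕ → ℂ) (x : ℕ → ℂ)

theorem lint_W1 (m : Measure ℂ) (r : ℝ) (C : ℝ≥0)
    (hC : ∀ (n : ℕ) (A : Matrix (Fin n) (Fin n) ℂ),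
      ∫⁻ t in ball (0:ℂ) r, Lam ‖(1 - t • A).det‖ ∂m ≤ C * ENNReal.ofReal (ns A)) (z : ℂ)
    (hs : Summable fun p : ℕ × ℕ => ‖k p.1 p.2 * (z - lam p.1)⁻¹‖) :
    ∫⁻ t in ball (0:ℂ) r, Wz lam k t z ∂m ≤
      C * ENNReal.ofReal (∑' p : ℕ × ℕ, ‖k p.1 p.2 * (z - lam p.1)⁻¹‖) := by
  have hmθ : ∀ N, Measurable fun t : ℂ => Lam ‖(1 - tr (Bz lam k t z) N).det‖ :=
    fun N => meas_LD_comp lam k (fun t => t) (fun _ => z) measurable_id measurable_const N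
  have h1 : ∫⁻ t in ball (0:ℂ) r,
      liminf (fun N => Lam ‖(1 - tr (Bz lam k t z) N).det‖) atTop ∂m ≤
      liminf (fun N => ∫⁻ t in ball (0:ℂ) r,
        Lam ‖(1 - tr (Bz lam k t z) N).det‖ ∂m) atTop :=
    lintegral_liminf_le hmθ
  have h2 : ∀ N, ∫⁻ t in ball (0:ℂ) r,
      Lam ‖(1 - tr (Bz lam k t z) N).det‖ ∂m ≤
      C * ENNReal.ofReal (∑' p : ℕ × ℕ, ‖k p.1 p.2 * (z - lam p.1)⁻¹‖) := by
    intro N
    simp only [tr_Bz]
    refine (hC _ _).trans ?_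
    gcongr
    exact ns_tr_le (fun m j => k m j * (z - lam m)⁻¹) hs N
  have h3 := liminf_le_liminf (f := atTop) (u := fun N => ∫⁻ t in ball (0:ℂ) r,
      Lam ‖(1 - tr (Bz lam k t z) N).det‖ ∂m)
      (v := fun _ : ℕ => (C : ENNReal) *
        ENNReal.ofReal (∑' p : ℕ × ℕ, ‖k p.1 p.2 * (z - lam p.1)⁻¹‖))
      (Eventually.of_forall h2)
  rw [liminf_const] at h3
  unfold Wz
  exact h1.trans h3

theorem lint_W (m : Measure ℂ) (r : ℝ) (C : ℝ≥0)
    (hC : ∀ (n : ℕ) (A : Matrix (Fin n) (Fin n) ℂ),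
      ∫⁻ t in ball (0:ℂ) r, Lam ‖(1 - t • A).det‖ ∂m ≤ C * ENNReal.ofReal (ns A))
    (R : ℝ) (L : ℝ) (hL : ∀ m, ‖lam m‖ ≤ L)
    (hk : Summable fun p : ℕ × ℕ => ‖k p.1 p.2‖) :
    ∫⁻ z in ball (0:ℂ) R, ∫⁻ t in ball (0:ℂ) r, Wz lam k t z ∂m ≠ ⊤ := by
  have hne := sum_ne_top lam L hL (fun p : ℕ × ℕ => k p.1 p.2) (fun p => p.1) hk R
  have hmS : Measurable fun z : ℂ => ∑' p : ℕ × ℕ, ‖k p.1 p.2 * (z - lam p.1)⁻¹‖ₑ :=
    Measurable.ennreal_tsum fun p => by fun_prop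
  have hae := ae_lt_top hmS hne
  have h1 : ∫⁻ z in ball (0:ℂ) R, (C : ENNReal) *
      ∑' p : ℕ × ℕ, ‖k p.1 p.2 * (z - lam p.1)⁻¹‖ₑ ≠ ⊤ := by
    rw [lintegral_const_mul _ hmS]
    exact ENNReal.mul_ne_top ENNReal.coe_ne_top hne
  refine ne_top_of_le_ne_top h1 (lintegral_mono_ae ?_)
  filter_upwards [hae] with z hz
  obtain ⟨hs, he⟩ := summable_of_enorm (fun p : ℕ × ℕ => k p.1 p.2 * (z - lam p.1)⁻¹) hz.ne
  refine (lint_W1 lam k m r C hC z hs).trans ?_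
  rw [he]

theorem scal (m : Measure ℂ) (hm : LogBd m) (r : ℝ) (L : ℝ) (hL : ∀ m, ‖lam m‖ ≤ L)
    (hk : Summable fun p : ℕ × ℕ => ‖k p.1 p.2‖)
    (hx : Summable fun m => ‖x m‖) (R : ℝ) :
    ∀ᵐ t ∂(m.restrict (ball (0:ℂ) r)), ∃ (f : ℕ → ℂ → ℂ) (G : ℂ → ENNReal),
      (∀ m, AEStronglyMeasurable (f m) (volume.restrict (ball (0:ℂ) R))) ∧
      ∫⁻ z in ball (0:ℂ) R, G z ≠ ⊤ ∧
      ∀ᵐ z ∂(volume.restrict (ball (0:ℂ) R)), (Summable fun m => ‖f m z‖) ∧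
        (∀ m, (z - lam m) * f m z = x m + t * ∑' j, k m j * f j z) ∧
        ENNReal.ofReal (Real.posLog (∑' m, ‖f m z‖)) ≤ G z := by
  obtain ⟨C, hC⟩ := pot m hm r
  obtain ⟨C', hC', -⟩ := hm r
  haveI : IsFiniteMeasure (m.restrict (ball (0:ℂ) r)) := by
    refine ⟨?_⟩
    rw [Measure.restrict_apply MeasurableSet.univ, univ_inter]
    exact lt_of_le_of_lt hC' ENNReal.coe_lt_top
  have hmW0 : Measurable fun p : ℂ × ℂ => Wz lam k p.2 p.1 :=
    meas_W_comp lam k (fun p : ℂ × ℂ => p.2) (fun p => p.1) measurable_snd measurable_fst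
  have hmW : Measurable (Function.uncurry fun (z t : ℂ) => Wz lam k t z) := hmW0
  have hmI : Measurable fun t : ℂ => ∫⁻ z in ball (0:ℂ) R, Wz lam k t z :=
    Measurable.lintegral_prod_left' (f := fun p : ℂ × ℂ => Wz lam k p.2 p.1) hmW0
  have hsw := lint_W lam k m r C hC R L hL hk
  rw [lintegral_lintegral_swap hmW.aemeasurable] at hsw
  have hae := ae_lt_top hmI hsw
  have hneS := sum_ne_top lam L hL (fun p : ℕ × ℕ => k p.1 p.2) (fun p => p.1) hk R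
  have hneb := sum_ne_top lam L hL x (fun m => m) hx R
  have hmS : Measurable fun z : ℂ => ∑' p : ℕ × ℕ, ‖k p.1 p.2 * (z - lam p.1)⁻¹‖ₑ :=
    Measurable.ennreal_tsum fun p => by fun_prop
  have hmb : Measurable fun z : ℂ => ∑' m, ‖x m * (z - lam m)⁻¹‖ₑ :=
    Measurable.ennreal_tsum fun m => by fun_prop
  have hnr : ∀ᵐ z ∂(volume.restrict (ball (0:ℂ) R)), z ∉ range lam :=
    ae_restrict_of_ae (measure_eq_zero_iff_ae_notMem.mp
      ((countable_range lam).measure_zero volume))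
  filter_upwards [hae] with κ hθ
  have hmWz : Measurable fun z => Wz lam k κ z :=
    meas_W_comp lam k (fun _ => κ) (fun z => z) measurable_const measurable_id
  have hWae := ae_lt_top hmWz hθ.ne
  -- pointwise solutions
  have hgood : ∀ᵐ z ∂(volume.restrict (ball (0:ℂ) R)), ∃ f : ℕ → ℂ,
      (∀ m, Tendsto (fun N => fN (Bz lam k κ z) (bz lam x z) N m) atTop (𝓝 (f m))) ∧
      (Summable fun m => ‖f m‖) ∧
      (∀ m, (z - lam m) * f m = x m + κ * ∑' j, k m j * f j) ∧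
      ENNReal.ofReal (Real.posLog (∑' m, ‖f m‖)) ≤ (∑' m, ‖x m * (z - lam m)⁻¹‖ₑ) +
        ENNReal.ofReal (2 * ‖κ‖) * (∑' p : ℕ × ℕ, ‖k p.1 p.2 * (z - lam p.1)⁻¹‖ₑ) +
          Wz lam k κ z + 2 := by
    filter_upwards [ae_lt_top hmS hneS, ae_lt_top hmb hneb, hnr, hWae] with z h1 h2 h3 h4
    obtain ⟨hs, he⟩ := summable_of_enorm (fun p : ℕ × ℕ => k p.1 p.2 * (z - lam p.1)⁻¹) h1.ne
    obtain ⟨hs', he'⟩ := summable_of_enorm (fun m : ℕ => x m * (z - lam m)⁻¹) h2.ne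
    have hnB : ∀ p : ℕ × ℕ, ‖Bz lam k κ z p.1 p.2‖ = ‖κ‖ * ‖k p.1 p.2 * (z - lam p.1)⁻¹‖ := by
      intro p
      unfold Bz
      rw [norm_mul]
    obtain ⟨f, hf1, hf2, hf3, hf4, hf5⟩ := solve (Bz lam k κ z) (bz lam x z)
      (by simpa only [hnB] using hs.mul_left ‖κ‖) hs' h4.ne
    refine ⟨f, hf1, hf2, fun m => ?_, ?_⟩
    · have hne : z - lam m ≠ 0 := fun h => h3 ⟨m, (sub_eq_zero.mp h).symm⟩
      rw [hf4 m, mul_add]
      congr 1
      · unfold bz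
        field_simp
      · rw [← tsum_mul_left, ← tsum_mul_left]
        refine tsum_congr fun j => ?_
        unfold Bz
        field_simp
    · refine (ENNReal.ofReal_le_ofReal hf5).trans ?_
      simp only [hnB]
      rw [tsum_mul_left, ← mul_assoc]
      have hS0 : 0 ≤ ∑' p : ℕ × ℕ, ‖k p.1 p.2 * (z - lam p.1)⁻¹‖ :=
        tsum_nonneg fun _ => norm_nonneg _
      have hb0 : 0 ≤ ∑' m, ‖bz lam x z m‖ := tsum_nonneg fun _ => norm_nonneg _
      rw [ENNReal.ofReal_add (by positivity) (by norm_num),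
        ENNReal.ofReal_add (by positivity) (by positivity),
        ENNReal.ofReal_add (by positivity) (by positivity),
        ENNReal.ofReal_mul (by positivity), he]
      have h6 : ENNReal.ofReal (∑' m, ‖bz lam x z m‖) = ∑' m, ‖x m * (z - lam m)⁻¹‖ₑ := he'
      rw [h6, ENNReal.ofReal_ofNat]
      gcongr
      exact ENNReal.ofReal_toReal_le
  refine ⟨fun m z => limUnder atTop fun N => fN (Bz lam k κ z) (bz lam x z) N m,
    fun z => (∑' m, ‖x m * (z - lam m)⁻¹‖ₑ) +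
        ENNReal.ofReal (2 * ‖κ‖) * (∑' p : ℕ × ℕ, ‖k p.1 p.2 * (z - lam p.1)⁻¹‖ₑ) +
          Wz lam k κ z + 2, ?_, ?_, ?_⟩
  · intro m
    refine aestronglyMeasurable_of_tendsto_ae atTop
      (f := fun N z => fN (Bz lam k κ z) (bz lam x z) N m)
      (fun N => (meas_fN lam k x κ N m).aestronglyMeasurable) ?_
    filter_upwards [hgood] with z hz
    obtain ⟨f, hf, -⟩ := hz
    have := (hf m).limUnder_eq
    rw [this]
    exact hf m
  · rw [lintegral_add_right _ measurable_const, lintegral_add_right _ hmWz,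
      lintegral_add_left hmb, lintegral_const_mul _ hmS]
    refine ENNReal.add_ne_top.mpr ⟨ENNReal.add_ne_top.mpr ⟨ENNReal.add_ne_top.mpr
      ⟨hneb, ENNReal.mul_ne_top ENNReal.ofReal_ne_top hneS⟩, hθ.ne⟩, ?_⟩
    rw [lintegral_const]
    refine ENNReal.mul_ne_top (by norm_num) ?_
    rw [Measure.restrict_apply MeasurableSet.univ, univ_inter]
    exact measure_ball_lt_top.ne
  · filter_upwards [hgood] with z hz
    obtain ⟨f, hf, hf2, hf3, hf4⟩ := hz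
    have he : ∀ m, (limUnder atTop fun N => fN (Bz lam k κ z) (bz lam x z) N m) = f m :=
      fun m => (hf m).limUnder_eq
    simp only [he]
    exact ⟨hf2, hf3, hf4⟩

end Pool.Agent.Q62.RQ
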